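import Pool.Agent.helper88.PF.Spec

/-!
# Project pf (MP_0b485e_lc), row BPM
-/

namespace PF

noncomputable section

theorem BPM_Cl {α β : Type} [LE α] [LE β] [Bot α] [Bot β] {D : Set (α × β)}
    {θ θ' : α → β → Prop} (h : ∀ u v, θ u v → θ' u v) (hD : Cl D θ) : Cl D θ' := by
  obtain ⟨h1, h2, h3⟩ := hD
  refine ⟨h1, h2, fun u v huv => ?_⟩
  obtain ⟨v', h4, h5, h6⟩ := h3 u v huv
  exact ⟨v', h4, h5, h u v' h6⟩

theorem BPM (hBPI : BPI_stmt) (hBVM : BVM_stmt) : BPM_stmt := by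
  intro Γ π β₀ α β
  cases π with
  | one _ K =>
    obtain ⟨M, P, hP, h⟩ := hBPI Γ β₀ α β
    refine ⟨M, fun Θ hV => ?_⟩
    obtain ⟨D, hD⟩ := hV
    exact ⟨P D, h K Θ D hD⟩
  | snoc π' β₁ α₁ =>
    obtain ⟨M, P, hP, h⟩ := hBPI α₁ β₀ α β
    refine ⟨M, fun Θ hV => ?_⟩
    refine hBVM _ π'
      (β₁.prod ((α₁.prod (α.pow M)).prod (β₀.prod (β.pow M))).set)
      (β₁.prod (α₁.prod (β₀.prod (α.prod β).set)).set)
      (fun t => (t.1, P t.2)) _ _ ?_ ?_ hV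
    · intro t t' htt
      exact ⟨htt.1, hP htt.2⟩
    · intro γ t ht
      have h1 := h (fun _ => True) (fun s t0 u v => Θ (γ, t.1, s) t0 u v) t.2
        (BPM_Cl (fun u v huv _ => huv) ht)
      exact BPM_Cl (fun u v huv => huv trivial) h1

end

end PF
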